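import Pool.Agent.helper14.NS.Q200a.PN13

/-!
Generated: certificates.
-/

namespace Pool.Agent.helper14.NS.Q200a

open Pool.Agent.helper31.IA (Z)
open Pool.Agent.helper31.IX (Op XOps runX Cov CovD cov_split covD_split)
open Pool.Agent.helper31.IC (TD)
open Pool.Agent.helper63.RG (reloc)
open Pool.Agent.helper63.NF hiding TD
open Pool.Agent.helper4.NS
open Pool.Agent.helper14.CF (xE covD_E)
open Pool.Agent.helper14.NR (share)

mutual
theorem A13_c0_t6 : CovD 1 gA13 [(5248122880, 250609664), (137438953472, 137438953472), (68719476736, 68719476736)] :=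
  covD_E kA13_eq (.n 2 (.l 2) (.n 2 (.l 2) (.n 1 (.n 2 (.l 2) (.n 1 (.n 2 (.l 2) (.n 2 (.l 2) (.n 1 (.n 1 (.n 0 (.l 0) (.l 0)) (.l 0)) (.l 0)))) (.l 0))) (.l 0))))
    [(5248122880, 250609664), (137438953472, 137438953472), (68719476736, 68719476736)] rfl (by decide +kernel)
theorem A13_c0_t10 : CovD 1 gA13 [(5248122880, 250609664), (17179869184, 17179869184), (206158430208, 68719476736)] :=
  covD_E kA13_eq (.n 1 (.n 2 (.n 1 (.n 2 (.l 0) (.l 0)) (.n 2 (.l 0) (.l 0))) (.n 2 (.l 0) (.l 0))) (.n 2 (.n 1 (.n 2 (.n 0 (.l 0) (.l 0)) (.l 0)) (.n 2 (.n 0 (.l 0) (.l 0)) (.l 0))) (.n 2 (.l 0) (.l 0))))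
    [(5248122880, 250609664), (17179869184, 17179869184), (206158430208, 68719476736)] rfl (by decide +kernel)
end

mutual
theorem A13_c0_t11 : CovD 1 gA13 [(5248122880, 250609664), (51539607552, 17179869184), (206158430208, 68719476736)] :=
  covD_E kA13_eq (.n 1 (.n 2 (.n 1 (.n 2 (.l 0) (.l 0)) (.n 2 (.l 0) (.l 0))) (.n 2 (.l 0) (.l 0))) (.n 2 (.n 2 (.l 0) (.l 0)) (.n 2 (.l 0) (.l 0))))
    [(5248122880, 250609664), (51539607552, 17179869184), (206158430208, 68719476736)] rfl (by decide +kernel)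
theorem A13_c0_t12 : CovD 1 gA13 [(5248122880, 250609664), (103079215104, 34359738368), (206158430208, 68719476736)] :=
  covD_E kA13_eq (.n 1 (.n 2 (.n 2 (.l 0) (.l 0)) (.n 2 (.l 0) (.l 0))) (.n 2 (.l 0) (.l 0)))
    [(5248122880, 250609664), (103079215104, 34359738368), (206158430208, 68719476736)] rfl (by decide +kernel)
end

mutual
theorem A13_c0_t13 : CovD 1 gA13 [(5248122880, 250609664), (206158430208, 68719476736), (206158430208, 68719476736)] :=
  covD_E kA13_eq (.n 1 (.n 2 (.l 0) (.l 0)) (.n 2 (.l 0) (.l 0)))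
    [(5248122880, 250609664), (206158430208, 68719476736), (206158430208, 68719476736)] rfl (by decide +kernel)
theorem A13_c0_t17 : CovD 1 gA13 [(5248122880, 250609664), (17179869184, 17179869184), (412316860416, 137438953472)] :=
  covD_E kA13_eq (.n 1 (.n 2 (.n 2 (.n 1 (.l 0) (.l 0)) (.l 0)) (.n 2 (.l 0) (.l 0))) (.n 2 (.n 2 (.n 0 (.l 0) (.l 0)) (.l 0)) (.n 2 (.l 0) (.l 0))))
    [(5248122880, 250609664), (17179869184, 17179869184), (412316860416, 137438953472)] rfl (by decide +kernel)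
end

mutual
theorem A13_c0_t18 : CovD 1 gA13 [(5248122880, 250609664), (51539607552, 17179869184), (412316860416, 137438953472)] :=
  covD_E kA13_eq (.n 1 (.n 2 (.n 2 (.n 0 (.l 0) (.l 0)) (.l 0)) (.n 2 (.l 0) (.l 0))) (.n 2 (.n 2 (.n 1 (.l 0) (.l 0)) (.l 0)) (.n 2 (.l 0) (.l 0))))
    [(5248122880, 250609664), (51539607552, 17179869184), (412316860416, 137438953472)] rfl (by decide +kernel)
theorem A13_c0_t19 : CovD 1 gA13 [(5248122880, 250609664), (103079215104, 34359738368), (412316860416, 137438953472)] :=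
  covD_E kA13_eq (.n 1 (.n 2 (.n 2 (.n 2 (.l 0) (.l 0)) (.n 1 (.l 0) (.l 0))) (.n 2 (.l 0) (.l 0))) (.n 2 (.n 2 (.l 0) (.l 0)) (.n 2 (.l 0) (.l 0))))
    [(5248122880, 250609664), (103079215104, 34359738368), (412316860416, 137438953472)] rfl (by decide +kernel)
end

mutual
theorem A13_c0_t20 : CovD 1 gA13 [(5248122880, 250609664), (206158430208, 68719476736), (412316860416, 137438953472)] :=
  covD_E kA13_eq (.n 1 (.n 2 (.n 2 (.l 0) (.n 0 (.l 0) (.l 0))) (.n 1 (.n 2 (.l 0) (.l 0)) (.n 2 (.l 0) (.l 0)))) (.n 2 (.n 2 (.l 0) (.l 0)) (.n 2 (.l 0) (.l 0))))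
    [(5248122880, 250609664), (206158430208, 68719476736), (412316860416, 137438953472)] rfl (by decide +kernel)
theorem A13_c0_t23 : CovD 1 gA13 [(5248122880, 250609664), (34359738368, 34359738368), (824633720832, 274877906944)] :=
  covD_E kA13_eq (.n 2 (.n 1 (.n 2 (.n 2 (.l 0) (.l 0)) (.l 0)) (.n 2 (.n 2 (.l 0) (.l 0)) (.n 1 (.l 0) (.l 0)))) (.n 2 (.n 1 (.l 0) (.l 0)) (.l 0)))
    [(5248122880, 250609664), (34359738368, 34359738368), (824633720832, 274877906944)] rfl (by decide +kernel)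
end

mutual
theorem A13_c0_t24 : CovD 1 gA13 [(5248122880, 250609664), (103079215104, 34359738368), (824633720832, 274877906944)] :=
  covD_E kA13_eq (.n 1 (.n 2 (.n 2 (.n 2 (.l 0) (.l 0)) (.n 1 (.l 0) (.l 0))) (.n 2 (.l 0) (.l 0))) (.n 2 (.n 2 (.n 2 (.l 0) (.l 0)) (.n 1 (.l 0) (.l 0))) (.n 2 (.n 0 (.l 0) (.l 0)) (.l 0))))
    [(5248122880, 250609664), (103079215104, 34359738368), (824633720832, 274877906944)] rfl (by decide +kernel)
theorem A13_c0_t26 : CovD 1 gA13 [(5248122880, 250609664), (171798691840, 34359738368), (824633720832, 274877906944)] :=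
  covD_E kA13_eq (.n 2 (.n 2 (.n 2 (.n 1 (.l 0) (.l 0)) (.l 0)) (.n 1 (.n 1 (.l 0) (.l 0)) (.l 0))) (.n 2 (.n 2 (.n 0 (.l 0) (.l 0)) (.l 0)) (.n 1 (.l 0) (.l 0))))
    [(5248122880, 250609664), (171798691840, 34359738368), (824633720832, 274877906944)] rfl (by decide +kernel)
end

mutual
theorem A13_c0_t27 : CovD 1 gA13 [(5248122880, 250609664), (240518168576, 34359738368), (824633720832, 274877906944)] :=
  covD_E kA13_eq (.n 2 (.n 2 (.n 2 (.l 0) (.l 0)) (.n 1 (.l 0) (.l 0))) (.n 1 (.n 2 (.l 0) (.l 0)) (.n 2 (.l 0) (.l 0))))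
    [(5248122880, 250609664), (240518168576, 34359738368), (824633720832, 274877906944)] rfl (by decide +kernel)
theorem A13_c0_t29 : CovD 1 gA13 [(5248122880, 250609664), (68719476736, 68719476736), (1649267441664, 549755813888)] :=
  covD_E kA13_eq (.n 2 (.n 2 (.n 2 (.n 1 (.l 0) (.l 0)) (.l 0)) (.n 2 (.l 0) (.l 0))) (.n 2 (.n 2 (.l 0) (.l 0)) (.n 1 (.l 0) (.l 0))))
    [(5248122880, 250609664), (68719476736, 68719476736), (1649267441664, 549755813888)] rfl (by decide +kernel)
end

mutual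
theorem A13_c0_t30 : CovD 1 gA13 [(5248122880, 250609664), (206158430208, 68719476736), (1649267441664, 549755813888)] :=
  covD_E kA13_eq (.n 2 (.n 2 (.n 1 (.n 2 (.l 0) (.l 0)) (.n 2 (.n 0 (.l 0) (.l 0)) (.l 0))) (.n 2 (.l 0) (.l 0))) (.n 1 (.n 2 (.l 0) (.l 0)) (.n 2 (.l 0) (.l 0))))
    [(5248122880, 250609664), (206158430208, 68719476736), (1649267441664, 549755813888)] rfl (by decide +kernel)
theorem A13_c0_t32 : CovD 1 gA13 [(5248122880, 250609664), (137438953472, 137438953472), (2748779069440, 549755813888)] :=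
  covD_E kA13_eq (.n 1 (.n 2 (.n 0 (.n 2 (.l 0) (.l 0)) (.n 2 (.l 0) (.l 0))) (.n 2 (.n 0 (.l 0) (.l 0)) (.l 0))) (.n 2 (.n 2 (.l 0) (.l 0)) (.n 2 (.n 0 (.l 0) (.l 0)) (.l 0))))
    [(5248122880, 250609664), (137438953472, 137438953472), (2748779069440, 549755813888)] rfl (by decide +kernel)
end

mutual
theorem A13_c0_t35 : CovD 1 gA13 [(5248122880, 250609664), (68719476736, 68719476736), (3573412790272, 274877906944)] :=
  covD_E kA13_eq (.n 2 (.l 0) (.n 2 (.l 0) (.n 2 (.l 0) (.n 0 (.n 1 (.n 2 (.l 0) (.n 0 (.n 2 (.l 0) (.n 0 (.l 1) (.l 1))) (.l 0))) (.n 0 (.l 0) (.l 0))) (.n 0 (.n 1 (.l 0) (.l 0)) (.n 1 (.l 0) (.l 0)))))))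
    [(5248122880, 250609664), (68719476736, 68719476736), (3573412790272, 274877906944)] rfl (by decide +kernel)
theorem A13_c0_t36 : CovD 1 gA13 [(5248122880, 250609664), (206158430208, 68719476736), (3573412790272, 274877906944)] :=
  covD_E kA13_eq (.n 2 (.l 0) (.n 2 (.l 0) (.n 0 (.n 1 (.n 0 (.l 0) (.l 0)) (.l 0)) (.n 1 (.l 0) (.l 0)))))
    [(5248122880, 250609664), (206158430208, 68719476736), (3573412790272, 274877906944)] rfl (by decide +kernel)
end

mutual
theorem A13_c0_t40 : CovD 1 gA13 [(5248122880, 250609664), (68719476736, 68719476736), (3917010173952, 68719476736)] :=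
  covD_E kA13_eq (.n 2 (.n 0 (.n 1 (.l 1) (.n 0 (.l 1) (.l 1))) (.n 0 (.n 1 (.l 1) (.l 1)) (.n 1 (.l 1) (.n 0 (.l 1) (.l 1))))) (.l 1))
    [(5248122880, 250609664), (68719476736, 68719476736), (3917010173952, 68719476736)] rfl (by decide +kernel)
theorem A13_c0_t41 : CovD 1 gA13 [(5248122880, 250609664), (206158430208, 68719476736), (3917010173952, 68719476736)] :=
  covD_E kA13_eq (.n 2 (.n 0 (.n 0 (.n 1 (.l 1) (.l 1)) (.n 1 (.l 1) (.n 0 (.l 1) (.l 1)))) (.n 0 (.n 0 (.n 1 (.l 1) (.l 1)) (.n 1 (.l 1) (.l 1))) (.n 1 (.n 1 (.l 1) (.l 1)) (.n 0 (.n 1 (.l 1) (.l 1)) (.n 1 (.l 1) (.l 1)))))) (.l 1))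
    [(5248122880, 250609664), (206158430208, 68719476736), (3917010173952, 68719476736)] rfl (by decide +kernel)
end

mutual
theorem A13_c0_t42 : CovD 1 gA13 [(5248122880, 250609664), (137438953472, 137438953472), (4054449127424, 68719476736)] :=
  covD_E kA13_eq (.l 1)
    [(5248122880, 250609664), (137438953472, 137438953472), (4054449127424, 68719476736)] rfl (by decide +kernel)
theorem A13_c0_t43 : CovD 1 gA13 [(5248122880, 250609664), (137438953472, 137438953472), (4260607557632, 137438953472)] :=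
  covD_E kA13_eq (.l 1)
    [(5248122880, 250609664), (137438953472, 137438953472), (4260607557632, 137438953472)] rfl (by decide +kernel)
end

mutual
theorem A13_c0_t44 : CovD 1 gA13 [(5248122880, 250609664), (137438953472, 137438953472), (6597069766656, 2199023255552)] :=
  covD_E kA13_eq (.n 2 (.n 2 (.l 1) (.l 1)) (.n 0 (.l 1) (.l 1)))
    [(5248122880, 250609664), (137438953472, 137438953472), (6597069766656, 2199023255552)] rfl (by decide +kernel)
theorem B13_c0_t2 : CovD 1 gB13 [(5248122880, 250609664), (137438953472, 137438953472), (17179869184, 17179869184)] :=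
  covD_E kB13_eq (.n 1 (.n 2 (.n 2 (.n 2 (.l 1) (.l 1)) (.n 0 (.l 1) (.l 1))) (.n 2 (.n 0 (.l 1) (.l 1)) (.l 1))) (.n 2 (.n 2 (.n 0 (.l 1) (.l 1)) (.l 1)) (.n 2 (.l 1) (.l 1))))
    [(5248122880, 250609664), (137438953472, 137438953472), (17179869184, 17179869184)] rfl (by decide +kernel)
end

mutual
theorem B13_c0_t3 : CovD 1 gB13 [(5248122880, 250609664), (137438953472, 137438953472), (51539607552, 17179869184)] :=
  covD_E kB13_eq (.n 2 (.n 2 (.n 1 (.l 1) (.l 1)) (.l 1)) (.n 2 (.l 1) (.l 1)))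
    [(5248122880, 250609664), (137438953472, 137438953472), (51539607552, 17179869184)] rfl (by decide +kernel)
theorem B13_c0_t4 : CovD 1 gB13 [(5248122880, 250609664), (137438953472, 137438953472), (103079215104, 34359738368)] :=
  covD_E kB13_eq (.n 2 (.n 2 (.n 1 (.l 1) (.l 1)) (.l 1)) (.n 2 (.l 1) (.l 1)))
    [(5248122880, 250609664), (137438953472, 137438953472), (103079215104, 34359738368)] rfl (by decide +kernel)
end

mutual
theorem C13_c0_t4 : CovD 1 gC13 [(5248122880, 250609664), (8589934592, 8589934592), (549755813888, 549755813888)] :=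
  covD_E kC13_eq (.n 2 (.n 2 (.n 2 (.l 0) (.l 0)) (.n 2 (.l 0) (.l 0))) (.n 2 (.n 2 (.l 0) (.l 0)) (.n 2 (.n 1 (.l 0) (.l 0)) (.n 2 (.l 0) (.n 2 (.l 0) (.n 2 (.l 0) (.n 2 (.l 0) (.n 2 (.l 0) (.l 1)))))))))
    [(5248122880, 250609664), (8589934592, 8589934592), (549755813888, 549755813888)] rfl (by decide +kernel)
theorem C13_c0_t5 : CovD 1 gC13 [(5248122880, 250609664), (25769803776, 8589934592), (549755813888, 549755813888)] :=
  covD_E kC13_eq (.n 1 (.n 2 (.n 2 (.l 0) (.l 0)) (.n 2 (.l 0) (.n 1 (.l 0) (.l 0)))) (.n 2 (.n 2 (.l 0) (.l 0)) (.n 2 (.l 0) (.l 0))))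
    [(5248122880, 250609664), (25769803776, 8589934592), (549755813888, 549755813888)] rfl (by decide +kernel)
end

mutual
theorem C13_c0_t6 : CovD 1 gC13 [(5248122880, 250609664), (51539607552, 17179869184), (549755813888, 549755813888)] :=
  covD_E kC13_eq (.n 2 (.n 2 (.l 0) (.l 0)) (.n 1 (.n 2 (.l 0) (.n 0 (.l 0) (.l 0))) (.n 2 (.l 0) (.l 0))))
    [(5248122880, 250609664), (51539607552, 17179869184), (549755813888, 549755813888)] rfl (by decide +kernel)
theorem C13_c0_t7 : CovD 1 gC13 [(5248122880, 250609664), (103079215104, 34359738368), (549755813888, 549755813888)] :=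
  covD_E kC13_eq (.n 2 (.n 2 (.l 0) (.l 0)) (.n 2 (.l 0) (.n 0 (.l 0) (.l 0))))
    [(5248122880, 250609664), (103079215104, 34359738368), (549755813888, 549755813888)] rfl (by decide +kernel)
end

mutual
theorem C13_c0_t8 : CovD 1 gC13 [(5248122880, 250609664), (206158430208, 68719476736), (549755813888, 549755813888)] :=
  covD_E kC13_eq (.n 2 (.n 2 (.l 0) (.l 0)) (.n 2 (.l 0) (.l 0)))
    [(5248122880, 250609664), (206158430208, 68719476736), (549755813888, 549755813888)] rfl (by decide +kernel)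
theorem D13_c0_t1 : CovD 1 gD13 [(5248122880, 250609664), (137438953472, 137438953472), (431805169664, 431805169664)] :=
  covD_E kD13_eq (.n 2 (.n 2 (.n 2 (.l 0) (.l 0)) (.n 2 (.l 0) (.l 0))) (.n 2 (.n 2 (.l 0) (.l 0)) (.n 2 (.l 0) (.l 0))))
    [(5248122880, 250609664), (137438953472, 137438953472), (431805169664, 431805169664)] rfl (by decide +kernel)
end

mutual
theorem D13_c0_t2 : CovD 1 gD13 [(5248122880, 250609664), (137438953472, 137438953472), (1295415508992, 431805169664)] :=
  covD_E kD13_eq (.n 2 (.n 2 (.n 2 (.l 0) (.l 0)) (.n 2 (.l 0) (.l 0))) (.n 2 (.n 2 (.n 0 (.l 0) (.l 0)) (.n 2 (.l 0) (.l 0))) (.n 2 (.n 2 (.l 0) (.l 0)) (.n 2 (.l 0) (.l 0)))))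
    [(5248122880, 250609664), (137438953472, 137438953472), (1295415508992, 431805169664)] rfl (by decide +kernel)
theorem E13_c0_t1 : CovD 1 gE13 [(5248122880, 250609664), (137438953472, 137438953472), (431805169664, 431805169664)] :=
  covD_E kE13_eq (.n 2 (.n 2 (.l 1) (.n 2 (.n 2 (.l 1) (.l 0)) (.n 2 (.l 0) (.l 0)))) (.n 2 (.n 2 (.n 2 (.l 0) (.l 0)) (.n 2 (.l 0) (.l 0))) (.n 2 (.n 2 (.l 0) (.l 0)) (.n 2 (.l 0) (.l 0)))))
    [(5248122880, 250609664), (137438953472, 137438953472), (431805169664, 431805169664)] rfl (by decide +kernel)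
end

theorem E13_c0_t2 : CovD 1 gE13 [(5248122880, 250609664), (137438953472, 137438953472), (1295415508992, 431805169664)] :=
  covD_E kE13_eq (.n 2 (.n 2 (.n 2 (.n 2 (.l 0) (.l 0)) (.n 2 (.l 0) (.l 0))) (.n 2 (.n 2 (.l 0) (.l 0)) (.n 2 (.l 0) (.l 0)))) (.n 2 (.n 2 (.n 2 (.l 0) (.l 0)) (.n 2 (.l 0) (.l 0))) (.n 2 (.n 2 (.l 0) (.l 0)) (.n 2 (.l 0) (.l 0)))))
    [(5248122880, 250609664), (137438953472, 137438953472), (1295415508992, 431805169664)] rfl (by decide +kernel)

theorem A13_c0_t9 : CovD 1 gA13 [(5248122880, 250609664), (34359738368, 34359738368), (206158430208, 68719476736)] :=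
  covD_split 1 (by decide +kernel) A13_c0_t10 A13_c0_t11

theorem A13_c0_t8 : CovD 1 gA13 [(5248122880, 250609664), (68719476736, 68719476736), (206158430208, 68719476736)] :=
  covD_split 1 (by decide +kernel) A13_c0_t9 A13_c0_t12

theorem A13_c0_t7 : CovD 1 gA13 [(5248122880, 250609664), (137438953472, 137438953472), (206158430208, 68719476736)] :=
  covD_split 1 (by decide +kernel) A13_c0_t8 A13_c0_t13

theorem A13_c0_t5 : CovD 1 gA13 [(5248122880, 250609664), (137438953472, 137438953472), (137438953472, 137438953472)] :=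
  covD_split 2 (by decide +kernel) A13_c0_t6 A13_c0_t7

theorem A13_c0_t16 : CovD 1 gA13 [(5248122880, 250609664), (34359738368, 34359738368), (412316860416, 137438953472)] :=
  covD_split 1 (by decide +kernel) A13_c0_t17 A13_c0_t18

theorem A13_c0_t15 : CovD 1 gA13 [(5248122880, 250609664), (68719476736, 68719476736), (412316860416, 137438953472)] :=
  covD_split 1 (by decide +kernel) A13_c0_t16 A13_c0_t19

theorem A13_c0_t14 : CovD 1 gA13 [(5248122880, 250609664), (137438953472, 137438953472), (412316860416, 137438953472)] :=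
  covD_split 1 (by decide +kernel) A13_c0_t15 A13_c0_t20

theorem A13_c0_t4 : CovD 1 gA13 [(5248122880, 250609664), (137438953472, 137438953472), (274877906944, 274877906944)] :=
  covD_split 2 (by decide +kernel) A13_c0_t5 A13_c0_t14

theorem A13_c0_t22 : CovD 1 gA13 [(5248122880, 250609664), (68719476736, 68719476736), (824633720832, 274877906944)] :=
  covD_split 1 (by decide +kernel) A13_c0_t23 A13_c0_t24

theorem A13_c0_t25 : CovD 1 gA13 [(5248122880, 250609664), (206158430208, 68719476736), (824633720832, 274877906944)] :=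
  covD_split 1 (by decide +kernel) A13_c0_t26 A13_c0_t27

theorem A13_c0_t21 : CovD 1 gA13 [(5248122880, 250609664), (137438953472, 137438953472), (824633720832, 274877906944)] :=
  covD_split 1 (by decide +kernel) A13_c0_t22 A13_c0_t25

theorem A13_c0_t3 : CovD 1 gA13 [(5248122880, 250609664), (137438953472, 137438953472), (549755813888, 549755813888)] :=
  covD_split 2 (by decide +kernel) A13_c0_t4 A13_c0_t21

theorem A13_c0_t28 : CovD 1 gA13 [(5248122880, 250609664), (137438953472, 137438953472), (1649267441664, 549755813888)] :=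
  covD_split 1 (by decide +kernel) A13_c0_t29 A13_c0_t30

theorem A13_c0_t2 : CovD 1 gA13 [(5248122880, 250609664), (137438953472, 137438953472), (1099511627776, 1099511627776)] :=
  covD_split 2 (by decide +kernel) A13_c0_t3 A13_c0_t28

theorem A13_c0_t34 : CovD 1 gA13 [(5248122880, 250609664), (137438953472, 137438953472), (3573412790272, 274877906944)] :=
  covD_split 1 (by decide +kernel) A13_c0_t35 A13_c0_t36

theorem A13_c0_t39 : CovD 1 gA13 [(5248122880, 250609664), (137438953472, 137438953472), (3917010173952, 68719476736)] :=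
  covD_split 1 (by decide +kernel) A13_c0_t40 A13_c0_t41

theorem A13_c0_t38 : CovD 1 gA13 [(5248122880, 250609664), (137438953472, 137438953472), (3985729650688, 137438953472)] :=
  covD_split 2 (by decide +kernel) A13_c0_t39 A13_c0_t42

theorem A13_c0_t37 : CovD 1 gA13 [(5248122880, 250609664), (137438953472, 137438953472), (4123168604160, 274877906944)] :=
  covD_split 2 (by decide +kernel) A13_c0_t38 A13_c0_t43

theorem A13_c0_t33 : CovD 1 gA13 [(5248122880, 250609664), (137438953472, 137438953472), (3848290697216, 549755813888)] :=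
  covD_split 2 (by decide +kernel) A13_c0_t34 A13_c0_t37

theorem A13_c0_t31 : CovD 1 gA13 [(5248122880, 250609664), (137438953472, 137438953472), (3298534883328, 1099511627776)] :=
  covD_split 2 (by decide +kernel) A13_c0_t32 A13_c0_t33

theorem A13_c0_t1 : CovD 1 gA13 [(5248122880, 250609664), (137438953472, 137438953472), (2199023255552, 2199023255552)] :=
  covD_split 2 (by decide +kernel) A13_c0_t2 A13_c0_t31

theorem A13_c0 : CovD 1 gA13 [(5248122880, 250609664), (137438953472, 137438953472), (4398046511104, 4398046511104)] :=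
  covD_split 2 (by decide +kernel) A13_c0_t1 A13_c0_t44

theorem B13_c0_t1 : CovD 1 gB13 [(5248122880, 250609664), (137438953472, 137438953472), (34359738368, 34359738368)] :=
  covD_split 2 (by decide +kernel) B13_c0_t2 B13_c0_t3

theorem B13_c0 : CovD 1 gB13 [(5248122880, 250609664), (137438953472, 137438953472), (68719476736, 68719476736)] :=
  covD_split 2 (by decide +kernel) B13_c0_t1 B13_c0_t4

theorem C13_c0_t3 : CovD 1 gC13 [(5248122880, 250609664), (17179869184, 17179869184), (549755813888, 549755813888)] :=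
  covD_split 1 (by decide +kernel) C13_c0_t4 C13_c0_t5

theorem C13_c0_t2 : CovD 1 gC13 [(5248122880, 250609664), (34359738368, 34359738368), (549755813888, 549755813888)] :=
  covD_split 1 (by decide +kernel) C13_c0_t3 C13_c0_t6

theorem C13_c0_t1 : CovD 1 gC13 [(5248122880, 250609664), (68719476736, 68719476736), (549755813888, 549755813888)] :=
  covD_split 1 (by decide +kernel) C13_c0_t2 C13_c0_t7

theorem C13_c0 : CovD 1 gC13 [(5248122880, 250609664), (137438953472, 137438953472), (549755813888, 549755813888)] :=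
  covD_split 1 (by decide +kernel) C13_c0_t1 C13_c0_t8

theorem D13_c0 : CovD 1 gD13 [(5248122880, 250609664), (137438953472, 137438953472), (863610339328, 863610339328)] :=
  covD_split 2 (by decide +kernel) D13_c0_t1 D13_c0_t2

theorem E13_c0 : CovD 1 gE13 [(5248122880, 250609664), (137438953472, 137438953472), (863610339328, 863610339328)] :=
  covD_split 2 (by decide +kernel) E13_c0_t1 E13_c0_t2

end Pool.Agent.helper14.NS.Q200a
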