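import Pool.Agent.helper14.NS.Q200a.PZ

/-!
Generated: certificates.
-/

namespace Pool.Agent.helper14.NS.Q200a

open Pool.Agent.helper31.IA (Z)
open Pool.Agent.helper31.IX (Op XOps runX Cov CovD cov_split covD_split)
open Pool.Agent.helper31.IC (TD)
open Pool.Agent.helper63.RG (reloc)
open Pool.Agent.helper63.NF hiding TD
open Pool.Agent.helper4.NS
open Pool.Agent.helper14.CF (xE covD_E)
open Pool.Agent.helper14.NR (share)

mutual
theorem Z_c0_t4 : CovD 1 gZ [(5248122880, 250609664), (34359738368, 34359738368), (170408804352, 115434061824)] :=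
  covD_E kZ_eq (.n 2 (.n 1 (.n 2 (.n 2 (.n 1 (.l 0) (.l 0)) (.l 0)) (.l 0)) (.n 2 (.n 2 (.l 0) (.l 0)) (.l 0))) (.n 2 (.l 0) (.l 0)))
    [(5248122880, 250609664), (34359738368, 34359738368), (170408804352, 115434061824)] rfl (by decide +kernel)
theorem Z_c0_t5 : CovD 1 gZ [(5248122880, 250609664), (34359738368, 34359738368), (401276928000, 115434061824)] :=
  covD_E kZ_eq (.n 2 (.n 2 (.l 0) (.n 1 (.l 0) (.l 0))) (.n 2 (.n 2 (.l 0) (.n 0 (.l 0) (.l 0))) (.n 1 (.n 2 (.l 0) (.l 0)) (.n 2 (.l 0) (.n 1 (.l 0) (.l 0))))))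
    [(5248122880, 250609664), (34359738368, 34359738368), (401276928000, 115434061824)] rfl (by decide +kernel)
end

mutual
theorem Z_c0_t9 : CovD 1 gZ [(5248122880, 250609664), (17179869184, 17179869184), (574428020736, 57717030912)] :=
  covD_E kZ_eq (.n 2 (.n 2 (.n 0 (.l 0) (.l 0)) (.n 2 (.l 0) (.l 0))) (.n 2 (.n 2 (.l 0) (.l 0)) (.n 2 (.l 0) (.n 0 (.l 0) (.l 0)))))
    [(5248122880, 250609664), (17179869184, 17179869184), (574428020736, 57717030912)] rfl (by decide +kernel)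
theorem Z_c0_t11 : CovD 1 gZ [(5248122880, 250609664), (17179869184, 17179869184), (661003567104, 28858515456)] :=
  covD_E kZ_eq (.n 2 (.n 1 (.n 2 (.l 0) (.l 0)) (.n 2 (.l 0) (.l 0))) (.n 2 (.n 2 (.l 0) (.l 0)) (.n 0 (.n 2 (.l 0) (.l 0)) (.l 0))))
    [(5248122880, 250609664), (17179869184, 17179869184), (661003567104, 28858515456)] rfl (by decide +kernel)
end

mutual
theorem Z_c0_t13 : CovD 1 gZ [(5248122880, 250609664), (17179869184, 17179869184), (704291340288, 14429257728)] :=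
  covD_E kZ_eq (.n 0 (.n 2 (.n 2 (.l 0) (.l 0)) (.n 1 (.l 0) (.n 2 (.l 0) (.l 0)))) (.n 2 (.l 0) (.l 0)))
    [(5248122880, 250609664), (17179869184, 17179869184), (704291340288, 14429257728)] rfl (by decide +kernel)
theorem Z_c0_t14 : CovD 1 gZ [(5248122880, 250609664), (17179869184, 17179869184), (733149855744, 14429257728)] :=
  covD_E kZ_eq (.n 1 (.n 2 (.n 2 (.l 0) (.l 0)) (.n 2 (.l 0) (.l 0))) (.n 0 (.n 2 (.n 2 (.l 0) (.l 0)) (.n 2 (.l 0) (.l 0))) (.n 2 (.l 0) (.l 0))))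
    [(5248122880, 250609664), (17179869184, 17179869184), (733149855744, 14429257728)] rfl (by decide +kernel)
end

mutual
theorem Z_c0_t18 : CovD 1 gZ [(5248122880, 250609664), (8589934592, 8589934592), (776437628928, 28858515456)] :=
  covD_E kZ_eq (.n 2 (.n 2 (.n 2 (.l 0) (.l 0)) (.n 2 (.l 0) (.l 0))) (.n 2 (.n 2 (.l 0) (.l 0)) (.n 2 (.l 0) (.l 0))))
    [(5248122880, 250609664), (8589934592, 8589934592), (776437628928, 28858515456)] rfl (by decide +kernel)
theorem Z_c0_t19 : CovD 1 gZ [(5248122880, 250609664), (25769803776, 8589934592), (776437628928, 28858515456)] :=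
  covD_E kZ_eq (.n 0 (.n 2 (.n 2 (.n 2 (.l 0) (.l 0)) (.n 2 (.l 0) (.l 0))) (.n 2 (.n 2 (.l 0) (.l 0)) (.n 2 (.l 0) (.l 0)))) (.n 2 (.n 2 (.l 0) (.l 0)) (.n 2 (.l 0) (.l 0))))
    [(5248122880, 250609664), (25769803776, 8589934592), (776437628928, 28858515456)] rfl (by decide +kernel)
end

mutual
theorem Z_c0_t20 : CovD 1 gZ [(5248122880, 250609664), (17179869184, 17179869184), (834154659840, 28858515456)] :=
  covD_E kZ_eq (.n 2 (.n 1 (.n 2 (.n 2 (.l 0) (.l 0)) (.n 2 (.l 0) (.l 0))) (.n 0 (.n 2 (.n 2 (.l 0) (.l 0)) (.n 2 (.l 0) (.l 0))) (.n 2 (.l 0) (.l 0)))) (.n 0 (.n 2 (.n 2 (.l 0) (.l 0)) (.n 2 (.l 0) (.l 0))) (.n 2 (.l 0) (.l 0))))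
    [(5248122880, 250609664), (17179869184, 17179869184), (834154659840, 28858515456)] rfl (by decide +kernel)
theorem Z_c0_t21 : CovD 1 gZ [(5248122880, 250609664), (17179869184, 17179869184), (920730206208, 57717030912)] :=
  covD_E kZ_eq (.n 2 (.n 2 (.n 2 (.n 2 (.l 0) (.l 0)) (.n 0 (.l 0) (.l 0))) (.n 0 (.n 2 (.l 0) (.l 0)) (.n 2 (.l 0) (.l 0)))) (.n 0 (.n 2 (.n 2 (.l 0) (.l 0)) (.n 2 (.l 0) (.l 0))) (.n 2 (.n 2 (.l 0) (.l 0)) (.n 2 (.l 0) (.l 0)))))
    [(5248122880, 250609664), (17179869184, 17179869184), (920730206208, 57717030912)] rfl (by decide +kernel)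
end

mutual
theorem Z_c0_t24 : CovD 1 gZ [(5248122880, 250609664), (51539607552, 17179869184), (574428020736, 57717030912)] :=
  covD_E kZ_eq (.n 2 (.n 2 (.n 2 (.l 0) (.l 0)) (.n 2 (.l 0) (.l 0))) (.n 2 (.n 1 (.n 2 (.l 0) (.l 0)) (.n 2 (.l 0) (.l 0))) (.n 2 (.n 1 (.l 0) (.l 0)) (.n 2 (.l 0) (.l 0)))))
    [(5248122880, 250609664), (51539607552, 17179869184), (574428020736, 57717030912)] rfl (by decide +kernel)
theorem Z_c0_t27 : CovD 1 gZ [(5248122880, 250609664), (51539607552, 17179869184), (646574309376, 14429257728)] :=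
  covD_E kZ_eq (.n 2 (.n 0 (.n 2 (.l 0) (.l 0)) (.l 0)) (.n 1 (.n 2 (.l 0) (.l 0)) (.n 2 (.l 0) (.l 0))))
    [(5248122880, 250609664), (51539607552, 17179869184), (646574309376, 14429257728)] rfl (by decide +kernel)
end

mutual
theorem Z_c0_t28 : CovD 1 gZ [(5248122880, 250609664), (51539607552, 17179869184), (675432824832, 14429257728)] :=
  covD_E kZ_eq (.n 1 (.n 2 (.n 2 (.l 0) (.l 0)) (.n 0 (.n 2 (.l 0) (.l 0)) (.l 0))) (.n 0 (.n 2 (.n 2 (.l 0) (.l 0)) (.n 2 (.l 0) (.l 0))) (.n 2 (.l 0) (.l 0))))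
    [(5248122880, 250609664), (51539607552, 17179869184), (675432824832, 14429257728)] rfl (by decide +kernel)
theorem Z_c0_t31 : CovD 1 gZ [(5122818048, 125304832), (42949672960, 8589934592), (718720598016, 28858515456)] :=
  covD_E kZ_eq (.n 2 (.n 2 (.n 2 (.l 0) (.l 0)) (.n 2 (.l 0) (.n 0 (.l 0) (.l 0)))) (.n 0 (.n 2 (.n 2 (.l 0) (.l 0)) (.n 2 (.l 0) (.l 0))) (.n 2 (.n 2 (.l 0) (.l 0)) (.n 2 (.l 0) (.l 0)))))
    [(5122818048, 125304832), (42949672960, 8589934592), (718720598016, 28858515456)] rfl (by decide +kernel)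
end

mutual
theorem Z_c0_t32 : CovD 1 gZ [(5122818048, 125304832), (60129542144, 8589934592), (718720598016, 28858515456)] :=
  covD_E kZ_eq (.n 2 (.n 2 (.n 2 (.l 0) (.n 0 (.l 0) (.l 0))) (.n 1 (.n 2 (.l 0) (.l 0)) (.n 2 (.l 0) (.l 0)))) (.n 2 (.n 2 (.n 1 (.l 0) (.l 0)) (.n 2 (.l 0) (.l 0))) (.n 2 (.n 2 (.l 0) (.l 0)) (.n 2 (.l 0) (.l 0)))))
    [(5122818048, 125304832), (60129542144, 8589934592), (718720598016, 28858515456)] rfl (by decide +kernel)
theorem Z_c0_t33 : CovD 1 gZ [(5373427712, 125304832), (51539607552, 17179869184), (718720598016, 28858515456)] :=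
  covD_E kZ_eq (.n 2 (.n 2 (.n 1 (.l 0) (.l 0)) (.n 2 (.l 0) (.l 0))) (.n 2 (.n 2 (.l 0) (.l 0)) (.n 2 (.l 0) (.l 0))))
    [(5373427712, 125304832), (51539607552, 17179869184), (718720598016, 28858515456)] rfl (by decide +kernel)
end

mutual
theorem Z_c0_t38 : CovD 1 gZ [(5122818048, 125304832), (42949672960, 8589934592), (776437628928, 28858515456)] :=
  covD_E kZ_eq (.n 2 (.n 2 (.n 2 (.n 0 (.l 0) (.l 0)) (.n 2 (.l 0) (.l 0))) (.n 2 (.n 2 (.l 0) (.l 0)) (.n 2 (.l 0) (.l 0)))) (.n 0 (.n 2 (.n 2 (.l 0) (.l 0)) (.n 2 (.l 0) (.l 0))) (.n 2 (.n 2 (.l 0) (.l 0)) (.n 2 (.l 0) (.l 0)))))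
    [(5122818048, 125304832), (42949672960, 8589934592), (776437628928, 28858515456)] rfl (by decide +kernel)
theorem Z_c0_t39 : CovD 1 gZ [(5122818048, 125304832), (60129542144, 8589934592), (776437628928, 28858515456)] :=
  covD_E kZ_eq (.n 2 (.n 2 (.n 2 (.n 2 (.l 0) (.l 0)) (.n 2 (.l 0) (.l 0))) (.n 2 (.n 2 (.l 0) (.l 0)) (.n 2 (.l 0) (.l 0)))) (.n 2 (.n 2 (.n 2 (.l 0) (.l 0)) (.n 2 (.l 0) (.l 0))) (.n 2 (.n 2 (.l 0) (.l 0)) (.n 0 (.l 0) (.l 0)))))
    [(5122818048, 125304832), (60129542144, 8589934592), (776437628928, 28858515456)] rfl (by decide +kernel)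
end

mutual
theorem Z_c0_t41 : CovD 1 gZ [(5122818048, 125304832), (51539607552, 17179869184), (819725402112, 14429257728)] :=
  covD_E kZ_eq (.n 2 (.n 0 (.n 1 (.n 2 (.l 0) (.l 0)) (.n 2 (.l 0) (.l 0))) (.n 2 (.n 0 (.l 0) (.l 0)) (.l 0))) (.n 1 (.n 2 (.l 0) (.l 0)) (.n 2 (.n 0 (.l 0) (.l 0)) (.l 0))))
    [(5122818048, 125304832), (51539607552, 17179869184), (819725402112, 14429257728)] rfl (by decide +kernel)
theorem Z_c0_t42 : CovD 1 gZ [(5122818048, 125304832), (51539607552, 17179869184), (848583917568, 14429257728)] :=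
  covD_E kZ_eq (.n 2 (.n 1 (.n 2 (.l 0) (.l 0)) (.n 2 (.l 0) (.l 0))) (.n 2 (.n 0 (.l 0) (.l 0)) (.l 0)))
    [(5122818048, 125304832), (51539607552, 17179869184), (848583917568, 14429257728)] rfl (by decide +kernel)
end

mutual
theorem Z_c0_t43 : CovD 1 gZ [(5373427712, 125304832), (51539607552, 17179869184), (805296144384, 57717030912)] :=
  covD_E kZ_eq (.n 2 (.n 2 (.n 2 (.n 2 (.l 0) (.l 0)) (.n 2 (.l 0) (.l 0))) (.n 2 (.n 2 (.l 0) (.l 0)) (.n 2 (.l 0) (.l 0)))) (.n 2 (.n 2 (.n 2 (.l 0) (.l 0)) (.n 2 (.l 0) (.l 0))) (.n 2 (.n 1 (.l 0) (.l 0)) (.l 0))))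
    [(5373427712, 125304832), (51539607552, 17179869184), (805296144384, 57717030912)] rfl (by decide +kernel)
theorem Z_c0_t45 : CovD 1 gZ [(5248122880, 250609664), (51539607552, 17179869184), (891871690752, 28858515456)] :=
  covD_E kZ_eq (.n 2 (.n 2 (.n 0 (.n 2 (.l 0) (.l 0)) (.l 0)) (.n 2 (.l 0) (.l 0))) (.n 1 (.n 2 (.l 0) (.l 0)) (.n 2 (.l 0) (.l 0))))
    [(5248122880, 250609664), (51539607552, 17179869184), (891871690752, 28858515456)] rfl (by decide +kernel)
end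

mutual
theorem Z_c0_t46 : CovD 1 gZ [(5248122880, 250609664), (51539607552, 17179869184), (949588721664, 28858515456)] :=
  covD_E kZ_eq (.n 2 (.n 0 (.n 2 (.l 0) (.l 0)) (.n 2 (.l 0) (.l 0))) (.n 2 (.n 0 (.l 0) (.l 0)) (.n 2 (.l 0) (.n 0 (.l 0) (.l 0)))))
    [(5248122880, 250609664), (51539607552, 17179869184), (949588721664, 28858515456)] rfl (by decide +kernel)
theorem Z_c0_t49 : CovD 1 gZ [(5248122880, 250609664), (103079215104, 34359738368), (170408804352, 115434061824)] :=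
  covD_E kZ_eq (.n 2 (.n 2 (.n 2 (.l 0) (.l 0)) (.l 0)) (.n 2 (.l 0) (.l 0)))
    [(5248122880, 250609664), (103079215104, 34359738368), (170408804352, 115434061824)] rfl (by decide +kernel)
end

mutual
theorem Z_c0_t50 : CovD 1 gZ [(5248122880, 250609664), (103079215104, 34359738368), (401276928000, 115434061824)] :=
  covD_E kZ_eq (.n 2 (.n 2 (.n 0 (.l 0) (.l 0)) (.n 2 (.l 0) (.l 0))) (.n 2 (.n 2 (.l 0) (.n 1 (.l 0) (.l 0))) (.n 1 (.n 2 (.l 0) (.n 1 (.l 0) (.l 0))) (.n 2 (.l 0) (.n 0 (.l 0) (.l 0))))))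
    [(5248122880, 250609664), (103079215104, 34359738368), (401276928000, 115434061824)] rfl (by decide +kernel)
theorem Z_c0_t54 : CovD 1 gZ [(5248122880, 250609664), (85899345920, 17179869184), (574428020736, 57717030912)] :=
  covD_E kZ_eq (.n 2 (.n 2 (.n 2 (.l 0) (.l 0)) (.n 2 (.l 0) (.l 0))) (.n 2 (.n 1 (.n 2 (.l 0) (.l 0)) (.n 2 (.l 0) (.l 0))) (.n 2 (.n 1 (.l 0) (.l 0)) (.n 2 (.l 0) (.l 0)))))
    [(5248122880, 250609664), (85899345920, 17179869184), (574428020736, 57717030912)] rfl (by decide +kernel)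
end

mutual
theorem Z_c0_t57 : CovD 1 gZ [(5248122880, 250609664), (85899345920, 17179869184), (646574309376, 14429257728)] :=
  covD_E kZ_eq (.n 2 (.n 0 (.n 2 (.l 0) (.l 0)) (.l 0)) (.n 1 (.n 2 (.l 0) (.l 0)) (.n 2 (.l 0) (.l 0))))
    [(5248122880, 250609664), (85899345920, 17179869184), (646574309376, 14429257728)] rfl (by decide +kernel)
theorem Z_c0_t58 : CovD 1 gZ [(5248122880, 250609664), (85899345920, 17179869184), (675432824832, 14429257728)] :=
  covD_E kZ_eq (.n 1 (.n 0 (.n 2 (.n 2 (.l 0) (.l 0)) (.n 2 (.l 0) (.l 0))) (.n 2 (.l 0) (.l 0))) (.n 2 (.n 2 (.l 0) (.l 0)) (.n 0 (.n 2 (.l 0) (.l 0)) (.l 0))))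
    [(5248122880, 250609664), (85899345920, 17179869184), (675432824832, 14429257728)] rfl (by decide +kernel)
end

mutual
theorem Z_c0_t60 : CovD 1 gZ [(5248122880, 250609664), (85899345920, 17179869184), (704291340288, 14429257728)] :=
  covD_E kZ_eq (.n 1 (.n 2 (.n 2 (.n 2 (.l 0) (.l 0)) (.n 2 (.l 0) (.l 0))) (.n 2 (.n 2 (.l 0) (.l 0)) (.n 0 (.n 1 (.l 0) (.l 0)) (.l 0)))) (.n 0 (.n 2 (.n 2 (.l 0) (.l 0)) (.n 2 (.l 0) (.l 0))) (.n 2 (.l 0) (.l 0))))
    [(5248122880, 250609664), (85899345920, 17179869184), (704291340288, 14429257728)] rfl (by decide +kernel)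
theorem Z_c0_t62 : CovD 1 gZ [(5122818048, 125304832), (85899345920, 17179869184), (733149855744, 14429257728)] :=
  covD_E kZ_eq (.n 1 (.n 2 (.n 2 (.n 1 (.l 0) (.l 0)) (.n 2 (.l 0) (.l 0))) (.n 2 (.n 2 (.l 0) (.l 0)) (.n 2 (.l 0) (.l 0)))) (.n 2 (.n 2 (.l 0) (.n 0 (.l 0) (.l 0))) (.n 0 (.n 2 (.l 0) (.l 0)) (.n 2 (.l 0) (.l 0)))))
    [(5122818048, 125304832), (85899345920, 17179869184), (733149855744, 14429257728)] rfl (by decide +kernel)
end

mutual
theorem Z_c0_t63 : CovD 1 gZ [(5373427712, 125304832), (85899345920, 17179869184), (733149855744, 14429257728)] :=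
  covD_E kZ_eq (.n 2 (.n 2 (.l 0) (.l 0)) (.n 2 (.l 0) (.l 0)))
    [(5373427712, 125304832), (85899345920, 17179869184), (733149855744, 14429257728)] rfl (by decide +kernel)
theorem Z_c0_t65 : CovD 1 gZ [(5248122880, 250609664), (120259084288, 17179869184), (574428020736, 57717030912)] :=
  covD_E kZ_eq (.n 2 (.n 2 (.n 2 (.l 0) (.l 0)) (.n 2 (.l 0) (.l 0))) (.n 2 (.n 2 (.l 0) (.l 0)) (.n 0 (.n 2 (.l 0) (.l 0)) (.n 2 (.l 0) (.l 0)))))
    [(5248122880, 250609664), (120259084288, 17179869184), (574428020736, 57717030912)] rfl (by decide +kernel)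
end

mutual
theorem Z_c0_t67 : CovD 1 gZ [(5248122880, 250609664), (120259084288, 17179869184), (661003567104, 28858515456)] :=
  covD_E kZ_eq (.n 2 (.n 2 (.n 1 (.l 0) (.l 0)) (.n 2 (.l 0) (.l 0))) (.n 2 (.n 2 (.l 0) (.l 0)) (.n 0 (.n 2 (.l 0) (.l 0)) (.l 0))))
    [(5248122880, 250609664), (120259084288, 17179869184), (661003567104, 28858515456)] rfl (by decide +kernel)
theorem Z_c0_t68 : CovD 1 gZ [(5248122880, 250609664), (120259084288, 17179869184), (718720598016, 28858515456)] :=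
  covD_E kZ_eq (.n 0 (.n 2 (.n 2 (.n 2 (.l 0) (.l 0)) (.n 2 (.l 0) (.l 0))) (.n 2 (.n 2 (.l 0) (.l 0)) (.n 2 (.l 0) (.l 0)))) (.n 2 (.n 2 (.l 0) (.n 0 (.l 0) (.l 0))) (.n 0 (.n 2 (.l 0) (.l 0)) (.n 2 (.l 0) (.l 0)))))
    [(5248122880, 250609664), (120259084288, 17179869184), (718720598016, 28858515456)] rfl (by decide +kernel)
end

mutual
theorem Z_c0_t74 : CovD 1 gZ [(5122818048, 125304832), (77309411328, 8589934592), (776437628928, 28858515456)] :=
  covD_E kZ_eq (.n 2 (.n 2 (.n 2 (.n 2 (.l 0) (.l 0)) (.n 2 (.l 0) (.l 0))) (.n 2 (.n 2 (.l 0) (.l 0)) (.n 2 (.l 0) (.l 0)))) (.n 2 (.n 2 (.n 2 (.l 0) (.l 0)) (.n 0 (.l 0) (.l 0))) (.n 0 (.n 2 (.l 0) (.l 0)) (.n 2 (.l 0) (.l 0)))))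
    [(5122818048, 125304832), (77309411328, 8589934592), (776437628928, 28858515456)] rfl (by decide +kernel)
theorem Z_c0_t75 : CovD 1 gZ [(5122818048, 125304832), (94489280512, 8589934592), (776437628928, 28858515456)] :=
  covD_E kZ_eq (.n 2 (.n 0 (.n 2 (.n 2 (.l 0) (.l 0)) (.n 2 (.l 0) (.l 0))) (.n 2 (.n 2 (.l 0) (.l 0)) (.n 2 (.l 0) (.l 0)))) (.n 2 (.n 2 (.n 0 (.l 0) (.l 0)) (.l 0)) (.n 2 (.l 0) (.l 0))))
    [(5122818048, 125304832), (94489280512, 8589934592), (776437628928, 28858515456)] rfl (by decide +kernel)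
end

mutual
theorem Z_c0_t76 : CovD 1 gZ [(5373427712, 125304832), (85899345920, 17179869184), (776437628928, 28858515456)] :=
  covD_E kZ_eq (.n 2 (.n 2 (.n 2 (.l 0) (.l 0)) (.n 2 (.l 0) (.l 0))) (.n 2 (.n 2 (.l 0) (.l 0)) (.n 2 (.l 0) (.l 0))))
    [(5373427712, 125304832), (85899345920, 17179869184), (776437628928, 28858515456)] rfl (by decide +kernel)
theorem Z_c0_t78 : CovD 1 gZ [(5248122880, 250609664), (85899345920, 17179869184), (819725402112, 14429257728)] :=
  covD_E kZ_eq (.n 0 (.n 2 (.n 2 (.n 0 (.n 1 (.l 0) (.l 0)) (.l 0)) (.n 2 (.l 0) (.l 0))) (.n 1 (.n 2 (.l 0) (.l 0)) (.n 2 (.l 0) (.l 0)))) (.n 2 (.n 2 (.l 0) (.l 0)) (.n 1 (.l 0) (.l 0))))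
    [(5248122880, 250609664), (85899345920, 17179869184), (819725402112, 14429257728)] rfl (by decide +kernel)
end

mutual
theorem Z_c0_t79 : CovD 1 gZ [(5248122880, 250609664), (85899345920, 17179869184), (848583917568, 14429257728)] :=
  covD_E kZ_eq (.n 2 (.n 1 (.n 0 (.n 2 (.l 0) (.l 0)) (.l 0)) (.n 2 (.l 0) (.l 0))) (.n 0 (.n 2 (.l 0) (.l 0)) (.l 0)))
    [(5248122880, 250609664), (85899345920, 17179869184), (848583917568, 14429257728)] rfl (by decide +kernel)
theorem Z_c0_t81 : CovD 1 gZ [(5248122880, 250609664), (120259084288, 17179869184), (776437628928, 28858515456)] :=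
  covD_E kZ_eq (.n 2 (.n 2 (.n 2 (.n 2 (.l 0) (.l 0)) (.n 2 (.l 0) (.l 0))) (.n 0 (.n 2 (.l 0) (.l 0)) (.n 0 (.l 0) (.l 0)))) (.n 0 (.n 2 (.n 2 (.l 0) (.l 0)) (.n 2 (.l 0) (.l 0))) (.n 0 (.n 2 (.l 0) (.l 0)) (.n 2 (.l 0) (.l 0)))))
    [(5248122880, 250609664), (120259084288, 17179869184), (776437628928, 28858515456)] rfl (by decide +kernel)
end

mutual
theorem Z_c0_t82 : CovD 1 gZ [(5248122880, 250609664), (120259084288, 17179869184), (834154659840, 28858515456)] :=
  covD_E kZ_eq (.n 2 (.n 0 (.n 2 (.n 2 (.l 0) (.l 0)) (.n 2 (.l 0) (.l 0))) (.n 2 (.l 0) (.l 0))) (.n 2 (.n 2 (.l 0) (.l 0)) (.n 0 (.l 0) (.l 0))))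
    [(5248122880, 250609664), (120259084288, 17179869184), (834154659840, 28858515456)] rfl (by decide +kernel)
theorem Z_c0_t84 : CovD 1 gZ [(5248122880, 250609664), (103079215104, 34359738368), (891871690752, 28858515456)] :=
  covD_E kZ_eq (.n 2 (.n 1 (.n 2 (.n 2 (.l 0) (.l 0)) (.n 2 (.l 0) (.l 0))) (.n 2 (.n 0 (.l 0) (.l 0)) (.l 0))) (.n 2 (.n 0 (.n 1 (.l 0) (.l 0)) (.l 0)) (.n 2 (.l 0) (.l 0))))
    [(5248122880, 250609664), (103079215104, 34359738368), (891871690752, 28858515456)] rfl (by decide +kernel)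
end

mutual
theorem Z_c0_t85 : CovD 1 gZ [(5248122880, 250609664), (103079215104, 34359738368), (949588721664, 28858515456)] :=
  covD_E kZ_eq (.n 2 (.n 2 (.n 2 (.l 0) (.l 0)) (.n 2 (.l 0) (.l 0))) (.n 0 (.n 2 (.l 0) (.n 2 (.l 0) (.l 0))) (.n 2 (.l 0) (.n 2 (.l 0) (.l 0)))))
    [(5248122880, 250609664), (103079215104, 34359738368), (949588721664, 28858515456)] rfl (by decide +kernel)
theorem Z_c0_t88 : CovD 1 gZ [(5248122880, 250609664), (171798691840, 34359738368), (285842866176, 230868123648)] :=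
  covD_E kZ_eq (.n 2 (.n 2 (.n 2 (.n 1 (.l 0) (.l 0)) (.l 0)) (.n 2 (.l 0) (.l 0))) (.n 2 (.n 1 (.n 2 (.l 0) (.l 0)) (.n 2 (.l 0) (.l 0))) (.n 2 (.n 2 (.l 0) (.l 0)) (.n 1 (.n 2 (.l 0) (.l 0)) (.n 2 (.l 0) (.l 0))))))
    [(5248122880, 250609664), (171798691840, 34359738368), (285842866176, 230868123648)] rfl (by decide +kernel)
end

mutual
theorem Z_c0_t91 : CovD 1 gZ [(5248122880, 250609664), (171798691840, 34359738368), (574428020736, 57717030912)] :=
  covD_E kZ_eq (.n 2 (.n 2 (.n 1 (.l 0) (.l 0)) (.n 2 (.l 0) (.l 0))) (.n 2 (.n 2 (.l 0) (.l 0)) (.n 2 (.l 0) (.n 0 (.l 0) (.l 0)))))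
    [(5248122880, 250609664), (171798691840, 34359738368), (574428020736, 57717030912)] rfl (by decide +kernel)
theorem Z_c0_t92 : CovD 1 gZ [(5248122880, 250609664), (171798691840, 34359738368), (689862082560, 57717030912)] :=
  covD_E kZ_eq (.n 2 (.n 1 (.n 2 (.n 2 (.l 0) (.l 0)) (.n 2 (.l 0) (.l 0))) (.n 2 (.n 2 (.l 0) (.l 0)) (.n 2 (.l 0) (.l 0)))) (.n 2 (.n 2 (.n 1 (.l 0) (.l 0)) (.n 2 (.l 0) (.l 0))) (.n 2 (.n 2 (.l 0) (.l 0)) (.n 2 (.l 0) (.l 0)))))
    [(5248122880, 250609664), (171798691840, 34359738368), (689862082560, 57717030912)] rfl (by decide +kernel)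
end

mutual
theorem Z_c0_t94 : CovD 1 gZ [(5248122880, 250609664), (171798691840, 34359738368), (805296144384, 57717030912)] :=
  covD_E kZ_eq (.n 2 (.n 2 (.n 2 (.n 2 (.l 0) (.l 0)) (.n 2 (.l 0) (.l 0))) (.n 2 (.n 2 (.l 0) (.l 0)) (.n 2 (.l 0) (.l 0)))) (.n 2 (.n 1 (.n 2 (.l 0) (.l 0)) (.n 2 (.l 0) (.l 0))) (.n 2 (.n 0 (.l 0) (.l 0)) (.l 0))))
    [(5248122880, 250609664), (171798691840, 34359738368), (805296144384, 57717030912)] rfl (by decide +kernel)
theorem Z_c0_t95 : CovD 1 gZ [(5248122880, 250609664), (171798691840, 34359738368), (920730206208, 57717030912)] :=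
  covD_E kZ_eq (.n 2 (.n 2 (.n 2 (.l 0) (.l 0)) (.n 2 (.l 0) (.l 0))) (.n 2 (.n 2 (.l 0) (.l 0)) (.n 2 (.l 0) (.n 0 (.l 0) (.l 0)))))
    [(5248122880, 250609664), (171798691840, 34359738368), (920730206208, 57717030912)] rfl (by decide +kernel)
end

mutual
theorem Z_c0_t98 : CovD 1 gZ [(5248122880, 250609664), (240518168576, 34359738368), (170408804352, 115434061824)] :=
  covD_E kZ_eq (.n 2 (.n 2 (.n 2 (.l 0) (.l 0)) (.n 2 (.l 0) (.l 0))) (.n 2 (.n 2 (.l 0) (.l 0)) (.n 2 (.l 0) (.l 0))))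
    [(5248122880, 250609664), (240518168576, 34359738368), (170408804352, 115434061824)] rfl (by decide +kernel)
theorem Z_c0_t99 : CovD 1 gZ [(5248122880, 250609664), (240518168576, 34359738368), (401276928000, 115434061824)] :=
  covD_E kZ_eq (.n 2 (.n 2 (.n 2 (.l 0) (.l 0)) (.n 2 (.l 0) (.l 0))) (.n 2 (.n 2 (.l 0) (.n 0 (.l 0) (.l 0))) (.n 1 (.n 2 (.l 0) (.l 0)) (.n 2 (.l 0) (.l 0)))))
    [(5248122880, 250609664), (240518168576, 34359738368), (401276928000, 115434061824)] rfl (by decide +kernel)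
end

mutual
theorem Z_c0_t101 : CovD 1 gZ [(5248122880, 250609664), (240518168576, 34359738368), (632145051648, 115434061824)] :=
  covD_E kZ_eq (.n 2 (.n 1 (.n 2 (.n 2 (.l 0) (.l 0)) (.n 2 (.l 0) (.l 0))) (.n 2 (.n 2 (.l 0) (.l 0)) (.n 2 (.l 0) (.l 0)))) (.n 2 (.n 2 (.n 2 (.l 0) (.l 0)) (.n 2 (.l 0) (.l 0))) (.n 2 (.n 2 (.l 0) (.l 0)) (.n 2 (.l 0) (.l 0)))))
    [(5248122880, 250609664), (240518168576, 34359738368), (632145051648, 115434061824)] rfl (by decide +kernel)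
theorem Z_c0_t102 : CovD 1 gZ [(5248122880, 250609664), (240518168576, 34359738368), (863013175296, 115434061824)] :=
  covD_E kZ_eq (.n 2 (.n 2 (.n 2 (.n 2 (.l 0) (.l 0)) (.n 1 (.l 0) (.l 0))) (.n 1 (.n 2 (.l 0) (.l 0)) (.n 2 (.l 0) (.l 0)))) (.n 2 (.n 0 (.n 2 (.l 0) (.l 0)) (.n 2 (.l 0) (.l 0))) (.n 2 (.n 0 (.l 0) (.l 0)) (.n 2 (.l 0) (.l 0)))))
    [(5248122880, 250609664), (240518168576, 34359738368), (863013175296, 115434061824)] rfl (by decide +kernel)
end

mutual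
theorem T_c0 : CovD 1 gT [(5248122880, 250609664), (137438953472, 137438953472)] :=
  covD_E kT_eq (.l 0)
    [(5248122880, 250609664), (137438953472, 137438953472)] rfl (by decide +kernel)
theorem S_c0 : CovD 0 gS [(5248122880, 250609664), (137438953472, 137438953472)] :=
  covD_E kS_eq (.l 0)
    [(5248122880, 250609664), (137438953472, 137438953472)] rfl (by decide +kernel)
end

theorem Z_c0_t3 : CovD 1 gZ [(5248122880, 250609664), (34359738368, 34359738368), (285842866176, 230868123648)] :=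
  covD_split 2 (by decide +kernel) Z_c0_t4 Z_c0_t5

theorem Z_c0_t12 : CovD 1 gZ [(5248122880, 250609664), (17179869184, 17179869184), (718720598016, 28858515456)] :=
  covD_split 2 (by decide +kernel) Z_c0_t13 Z_c0_t14

theorem Z_c0_t10 : CovD 1 gZ [(5248122880, 250609664), (17179869184, 17179869184), (689862082560, 57717030912)] :=
  covD_split 2 (by decide +kernel) Z_c0_t11 Z_c0_t12

theorem Z_c0_t8 : CovD 1 gZ [(5248122880, 250609664), (17179869184, 17179869184), (632145051648, 115434061824)] :=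
  covD_split 2 (by decide +kernel) Z_c0_t9 Z_c0_t10

theorem Z_c0_t17 : CovD 1 gZ [(5248122880, 250609664), (17179869184, 17179869184), (776437628928, 28858515456)] :=
  covD_split 1 (by decide +kernel) Z_c0_t18 Z_c0_t19

theorem Z_c0_t16 : CovD 1 gZ [(5248122880, 250609664), (17179869184, 17179869184), (805296144384, 57717030912)] :=
  covD_split 2 (by decide +kernel) Z_c0_t17 Z_c0_t20

theorem Z_c0_t15 : CovD 1 gZ [(5248122880, 250609664), (17179869184, 17179869184), (863013175296, 115434061824)] :=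
  covD_split 2 (by decide +kernel) Z_c0_t16 Z_c0_t21

theorem Z_c0_t7 : CovD 1 gZ [(5248122880, 250609664), (17179869184, 17179869184), (747579113472, 230868123648)] :=
  covD_split 2 (by decide +kernel) Z_c0_t8 Z_c0_t15

theorem Z_c0_t26 : CovD 1 gZ [(5248122880, 250609664), (51539607552, 17179869184), (661003567104, 28858515456)] :=
  covD_split 2 (by decide +kernel) Z_c0_t27 Z_c0_t28

theorem Z_c0_t30 : CovD 1 gZ [(5122818048, 125304832), (51539607552, 17179869184), (718720598016, 28858515456)] :=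
  covD_split 1 (by decide +kernel) Z_c0_t31 Z_c0_t32

theorem Z_c0_t29 : CovD 1 gZ [(5248122880, 250609664), (51539607552, 17179869184), (718720598016, 28858515456)] :=
  covD_split 0 (by decide +kernel) Z_c0_t30 Z_c0_t33

theorem Z_c0_t25 : CovD 1 gZ [(5248122880, 250609664), (51539607552, 17179869184), (689862082560, 57717030912)] :=
  covD_split 2 (by decide +kernel) Z_c0_t26 Z_c0_t29

theorem Z_c0_t23 : CovD 1 gZ [(5248122880, 250609664), (51539607552, 17179869184), (632145051648, 115434061824)] :=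
  covD_split 2 (by decide +kernel) Z_c0_t24 Z_c0_t25

theorem Z_c0_t37 : CovD 1 gZ [(5122818048, 125304832), (51539607552, 17179869184), (776437628928, 28858515456)] :=
  covD_split 1 (by decide +kernel) Z_c0_t38 Z_c0_t39

theorem Z_c0_t40 : CovD 1 gZ [(5122818048, 125304832), (51539607552, 17179869184), (834154659840, 28858515456)] :=
  covD_split 2 (by decide +kernel) Z_c0_t41 Z_c0_t42

theorem Z_c0_t36 : CovD 1 gZ [(5122818048, 125304832), (51539607552, 17179869184), (805296144384, 57717030912)] :=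
  covD_split 2 (by decide +kernel) Z_c0_t37 Z_c0_t40

theorem Z_c0_t35 : CovD 1 gZ [(5248122880, 250609664), (51539607552, 17179869184), (805296144384, 57717030912)] :=
  covD_split 0 (by decide +kernel) Z_c0_t36 Z_c0_t43

theorem Z_c0_t44 : CovD 1 gZ [(5248122880, 250609664), (51539607552, 17179869184), (920730206208, 57717030912)] :=
  covD_split 2 (by decide +kernel) Z_c0_t45 Z_c0_t46

theorem Z_c0_t34 : CovD 1 gZ [(5248122880, 250609664), (51539607552, 17179869184), (863013175296, 115434061824)] :=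
  covD_split 2 (by decide +kernel) Z_c0_t35 Z_c0_t44

theorem Z_c0_t22 : CovD 1 gZ [(5248122880, 250609664), (51539607552, 17179869184), (747579113472, 230868123648)] :=
  covD_split 2 (by decide +kernel) Z_c0_t23 Z_c0_t34

theorem Z_c0_t6 : CovD 1 gZ [(5248122880, 250609664), (34359738368, 34359738368), (747579113472, 230868123648)] :=
  covD_split 1 (by decide +kernel) Z_c0_t7 Z_c0_t22

theorem Z_c0_t2 : CovD 1 gZ [(5248122880, 250609664), (34359738368, 34359738368), (516710989824, 461736247296)] :=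
  covD_split 2 (by decide +kernel) Z_c0_t3 Z_c0_t6

theorem Z_c0_t48 : CovD 1 gZ [(5248122880, 250609664), (103079215104, 34359738368), (285842866176, 230868123648)] :=
  covD_split 2 (by decide +kernel) Z_c0_t49 Z_c0_t50

theorem Z_c0_t56 : CovD 1 gZ [(5248122880, 250609664), (85899345920, 17179869184), (661003567104, 28858515456)] :=
  covD_split 2 (by decide +kernel) Z_c0_t57 Z_c0_t58

theorem Z_c0_t61 : CovD 1 gZ [(5248122880, 250609664), (85899345920, 17179869184), (733149855744, 14429257728)] :=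
  covD_split 0 (by decide +kernel) Z_c0_t62 Z_c0_t63

theorem Z_c0_t59 : CovD 1 gZ [(5248122880, 250609664), (85899345920, 17179869184), (718720598016, 28858515456)] :=
  covD_split 2 (by decide +kernel) Z_c0_t60 Z_c0_t61

theorem Z_c0_t55 : CovD 1 gZ [(5248122880, 250609664), (85899345920, 17179869184), (689862082560, 57717030912)] :=
  covD_split 2 (by decide +kernel) Z_c0_t56 Z_c0_t59

theorem Z_c0_t53 : CovD 1 gZ [(5248122880, 250609664), (85899345920, 17179869184), (632145051648, 115434061824)] :=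
  covD_split 2 (by decide +kernel) Z_c0_t54 Z_c0_t55

theorem Z_c0_t66 : CovD 1 gZ [(5248122880, 250609664), (120259084288, 17179869184), (689862082560, 57717030912)] :=
  covD_split 2 (by decide +kernel) Z_c0_t67 Z_c0_t68

theorem Z_c0_t64 : CovD 1 gZ [(5248122880, 250609664), (120259084288, 17179869184), (632145051648, 115434061824)] :=
  covD_split 2 (by decide +kernel) Z_c0_t65 Z_c0_t66

theorem Z_c0_t52 : CovD 1 gZ [(5248122880, 250609664), (103079215104, 34359738368), (632145051648, 115434061824)] :=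
  covD_split 1 (by decide +kernel) Z_c0_t53 Z_c0_t64

theorem Z_c0_t73 : CovD 1 gZ [(5122818048, 125304832), (85899345920, 17179869184), (776437628928, 28858515456)] :=
  covD_split 1 (by decide +kernel) Z_c0_t74 Z_c0_t75

theorem Z_c0_t72 : CovD 1 gZ [(5248122880, 250609664), (85899345920, 17179869184), (776437628928, 28858515456)] :=
  covD_split 0 (by decide +kernel) Z_c0_t73 Z_c0_t76

theorem Z_c0_t77 : CovD 1 gZ [(5248122880, 250609664), (85899345920, 17179869184), (834154659840, 28858515456)] :=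
  covD_split 2 (by decide +kernel) Z_c0_t78 Z_c0_t79

theorem Z_c0_t71 : CovD 1 gZ [(5248122880, 250609664), (85899345920, 17179869184), (805296144384, 57717030912)] :=
  covD_split 2 (by decide +kernel) Z_c0_t72 Z_c0_t77

theorem Z_c0_t80 : CovD 1 gZ [(5248122880, 250609664), (120259084288, 17179869184), (805296144384, 57717030912)] :=
  covD_split 2 (by decide +kernel) Z_c0_t81 Z_c0_t82

theorem Z_c0_t70 : CovD 1 gZ [(5248122880, 250609664), (103079215104, 34359738368), (805296144384, 57717030912)] :=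
  covD_split 1 (by decide +kernel) Z_c0_t71 Z_c0_t80

theorem Z_c0_t83 : CovD 1 gZ [(5248122880, 250609664), (103079215104, 34359738368), (920730206208, 57717030912)] :=
  covD_split 2 (by decide +kernel) Z_c0_t84 Z_c0_t85

theorem Z_c0_t69 : CovD 1 gZ [(5248122880, 250609664), (103079215104, 34359738368), (863013175296, 115434061824)] :=
  covD_split 2 (by decide +kernel) Z_c0_t70 Z_c0_t83

theorem Z_c0_t51 : CovD 1 gZ [(5248122880, 250609664), (103079215104, 34359738368), (747579113472, 230868123648)] :=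
  covD_split 2 (by decide +kernel) Z_c0_t52 Z_c0_t69

theorem Z_c0_t47 : CovD 1 gZ [(5248122880, 250609664), (103079215104, 34359738368), (516710989824, 461736247296)] :=
  covD_split 2 (by decide +kernel) Z_c0_t48 Z_c0_t51

theorem Z_c0_t1 : CovD 1 gZ [(5248122880, 250609664), (68719476736, 68719476736), (516710989824, 461736247296)] :=
  covD_split 1 (by decide +kernel) Z_c0_t2 Z_c0_t47

theorem Z_c0_t90 : CovD 1 gZ [(5248122880, 250609664), (171798691840, 34359738368), (632145051648, 115434061824)] :=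
  covD_split 2 (by decide +kernel) Z_c0_t91 Z_c0_t92

theorem Z_c0_t93 : CovD 1 gZ [(5248122880, 250609664), (171798691840, 34359738368), (863013175296, 115434061824)] :=
  covD_split 2 (by decide +kernel) Z_c0_t94 Z_c0_t95

theorem Z_c0_t89 : CovD 1 gZ [(5248122880, 250609664), (171798691840, 34359738368), (747579113472, 230868123648)] :=
  covD_split 2 (by decide +kernel) Z_c0_t90 Z_c0_t93

theorem Z_c0_t87 : CovD 1 gZ [(5248122880, 250609664), (171798691840, 34359738368), (516710989824, 461736247296)] :=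
  covD_split 2 (by decide +kernel) Z_c0_t88 Z_c0_t89

theorem Z_c0_t97 : CovD 1 gZ [(5248122880, 250609664), (240518168576, 34359738368), (285842866176, 230868123648)] :=
  covD_split 2 (by decide +kernel) Z_c0_t98 Z_c0_t99

theorem Z_c0_t100 : CovD 1 gZ [(5248122880, 250609664), (240518168576, 34359738368), (747579113472, 230868123648)] :=
  covD_split 2 (by decide +kernel) Z_c0_t101 Z_c0_t102

theorem Z_c0_t96 : CovD 1 gZ [(5248122880, 250609664), (240518168576, 34359738368), (516710989824, 461736247296)] :=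
  covD_split 2 (by decide +kernel) Z_c0_t97 Z_c0_t100

theorem Z_c0_t86 : CovD 1 gZ [(5248122880, 250609664), (206158430208, 68719476736), (516710989824, 461736247296)] :=
  covD_split 1 (by decide +kernel) Z_c0_t87 Z_c0_t96

theorem Z_c0 : CovD 1 gZ [(5248122880, 250609664), (137438953472, 137438953472), (516710989824, 461736247296)] :=
  covD_split 1 (by decide +kernel) Z_c0_t1 Z_c0_t86

end Pool.Agent.helper14.NS.Q200a
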